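import Pool.Agent.J6H54.CG.Stm

/-!
# CG-19: the proper powers are negligible

Proof of the statement `S_E`.
-/

set_option autoImplicit false

namespace Pool.Agent.J6H76.CG19

open Finset Pool.Agent.J6H54.CG

/-- the arithmetic behind the estimate -/
theorem key_ineq {R K l c q m e : ℕ} (hp : (e + 2) * l ≤ c + (e + 2) * K) (hK : 2 * K ≤ l)
    (hl : q ≤ R * l) (hm : m = q * (e + 2)) : 4 * R * l + m ≤ 4 * R * (c + K) := by
  have h1 : (e + 1) * (2 * K) ≤ (e + 1) * l := Nat.mul_le_mul_left _ hK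
  have h5 : (e + 3) * l ≤ 2 * (c + K) := by nlinarith
  have h6 : 2 * R * ((e + 3) * l) ≤ 2 * R * (2 * (c + K)) := Nat.mul_le_mul_left _ h5
  have h7 : (2 * (e + 1)) * q ≤ (2 * (e + 1)) * (R * l) := Nat.mul_le_mul_left _ hl
  have h8 : q * (e + 2) ≤ (2 * (e + 1)) * q := by nlinarith [Nat.zero_le (q * e)]
  rw [hm]
  nlinarith

theorem m19 (h11 : S_range) (h14 : S_pow) (h15 : S_cj) : S_E := by
  intro k T R K C ρ hG hB hKey hRad
  obtain ⟨hht, -⟩ := h11 k T R hG hB
  obtain ⟨-, -, -, hexp, -, -, -, -, hreal⟩ := h15 k T hG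
  have hpow := h14 k T K hG hKey
  have hR : 1 ≤ R := hB.one_le
  have hRr : (0 : ℝ) < R := by exact_mod_cast hR
  have hk1 : (1 : ℝ) ≤ k := by
    have := hG.two_le
    exact_mod_cast (by omega : 1 ≤ k)
  have hρ := hRad.pos
  have hρ1 := hRad.lt_one
  obtain ⟨θ, hθ0, hθ1, hθR⟩ : ∃ θ : ℝ, 0 < θ ∧ θ < 1 ∧ θ ^ (4 * R) = ρ := by
    have h4R : (0 : ℝ) < ((4 * R : ℕ) : ℝ) := by
      exact_mod_cast (by omega : 0 < 4 * R)
    refine ⟨ρ ^ ((1 : ℝ) / ((4 * R : ℕ) : ℝ)), Real.rpow_pos_of_pos hρ _,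
      Real.rpow_lt_one hρ.le hρ1 (by positivity), ?_⟩
    rw [← Real.rpow_natCast, ← Real.rpow_mul hρ.le, one_div, inv_mul_cancel₀ h4R.ne', Real.rpow_one]
  have hclen : ∀ (x : ℚ) (m : ℕ), KA k x → m ≤ R * clen k T (x, (m : ℤ)) := by
    intro x m hx
    obtain ⟨q, hq, hcj, hlen⟩ := hreal (x, (m : ℤ)) hx
    have h1 := hexp _ _ hcj
    have h2 := hht q hq
    rw [← h1, hlen] at h2
    simpa using h2
  have hth : ∀ {a b : ℕ}, a ≤ b → θ ^ b ≤ θ ^ a := fun h =>
    pow_le_pow_of_le_one hθ0.le hθ1.le h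
  refine ⟨(k : ℝ) ^ (2 * K * R) + (2 / ρ) ^ K, θ, hθ0, hθ1, ?_⟩
  intro m z hm hz1 hz2
  have hz0 : 0 < z := by linarith
  have hzpow : ∀ n : ℕ, z ^ n ≤ θ ^ (4 * R * n) := by
    intro n
    rw [pow_mul, hθR]
    exact pow_le_pow_left₀ hz0.le hz2 n
  have hA : ∀ q, A k T q z ≤ 1 := by
    intro q
    obtain ⟨t, ht0, ht1, htR⟩ : ∃ t : ℝ, 0 < t ∧ t ≤ 1 ∧ ρ * t ^ R = z := by
      have h0 : 0 < z / ρ := div_pos hz0 hρ
      refine ⟨(z / ρ) ^ ((1 : ℝ) / (R : ℝ)), Real.rpow_pos_of_pos h0 _,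
        Real.rpow_le_one h0.le ((div_le_one hρ).2 hz2) (by positivity), ?_⟩
      rw [← Real.rpow_natCast, ← Real.rpow_mul h0.le, one_div, inv_mul_cancel₀ hRr.ne',
        Real.rpow_one]
      field_simp
    have h := hRad.le t ht0 ht1 q
    rw [htR] at h
    exact h.trans (pow_le_one₀ ht0.le ht1)
  have hterm : ∀ q ∈ m.properDivisors,
      ∑ b ∈ range (k ^ q), z ^ clen k T ((geomB k b q (m / q) : ℚ), (m : ℤ)) ≤
        ((k : ℝ) ^ (2 * K * R) + (2 / ρ) ^ K) * θ ^ m := by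
    intro q hq
    rw [Nat.mem_properDivisors] at hq
    obtain ⟨hdvd, hlt⟩ := hq
    have hq0 : 1 ≤ q := Nat.pos_of_dvd_of_pos hdvd hm
    obtain ⟨d, hd⟩ := hdvd
    have hmq : m / q = d := by
      rw [hd]
      exact Nat.mul_div_cancel_left d hq0
    rw [hmq]
    have hd2 : 2 ≤ d := by
      by_contra hcon
      have h1 : q * d ≤ q * 1 := Nat.mul_le_mul_left q (by omega)
      omega
    by_cases hqK : q < 2 * K * R
    · have h1 : ∀ b ∈ range (k ^ q),
          z ^ clen k T ((geomB k b q d : ℚ), (m : ℤ)) ≤ θ ^ m := by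
        intro b _
        refine (hzpow _).trans (hth ?_)
        have h2 := hclen (geomB k b q d : ℚ) m (ka_nat _)
        have h3 : 4 * R * clen k T ((geomB k b q d : ℚ), (m : ℤ)) =
            4 * (R * clen k T ((geomB k b q d : ℚ), (m : ℤ))) := by ring
        rw [h3]
        omega
      refine (sum_le_card_nsmul _ _ _ h1).trans ?_
      rw [card_range, nsmul_eq_mul]
      apply mul_le_mul_of_nonneg_right _ (pow_nonneg hθ0.le m)
      have h2 : (k : ℝ) ^ q ≤ (k : ℝ) ^ (2 * K * R) := pow_le_pow_right₀ hk1 hqK.le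
      have h3 : 0 ≤ (2 / ρ) ^ K := by positivity
      push_cast
      linarith
    · push Not at hqK
      have h1 : ∀ b ∈ range (k ^ q), z ^ clen k T ((geomB k b q d : ℚ), (m : ℤ)) ≤
          (2 / ρ) ^ K * θ ^ m * z ^ len k T ((b : ℚ), (q : ℤ)) := by
        intro b hb
        rw [mem_range] at hb
        have hp := hpow b q d hq0 hb
        rw [← hd] at hp
        generalize clen k T ((geomB k b q d : ℚ), (m : ℤ)) = c at hp ⊢
        have hl : q ≤ R * len k T ((b : ℚ), (q : ℤ)) := by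
          have := hht ((b : ℚ), (q : ℤ)) (ka_nat b)
          simpa using this
        generalize len k T ((b : ℚ), (q : ℤ)) = l at hp hl ⊢
        have hlK : 2 * K ≤ l := by
          have h2 : R * (2 * K) ≤ R * l := by
            calc R * (2 * K) = 2 * K * R := by ring
              _ ≤ q := hqK
              _ ≤ R * l := hl
          exact Nat.le_of_mul_le_mul_left h2 hR
        obtain ⟨e, rfl⟩ : ∃ e, d = e + 2 := ⟨d - 2, by omega⟩
        have key := key_ineq hp hlK hl hd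
        have hcl : l ≤ c + K := by
          have h2 : 4 * R * l ≤ 4 * R * (c + K) := by omega
          exact Nat.le_of_mul_le_mul_left h2 (by omega)
        have h2 : z ^ (c + K) ≤ z ^ l * θ ^ m := by
          obtain ⟨u, hu⟩ := Nat.exists_eq_add_of_le hcl
          rw [hu, pow_add]
          apply mul_le_mul_of_nonneg_left _ (pow_nonneg hz0.le _)
          refine (hzpow u).trans (hth ?_)
          rw [hu, Nat.mul_add] at key
          omega
        have h3 : 1 ≤ (2 / ρ) ^ K * z ^ K := by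
          rw [← mul_pow]
          apply one_le_pow₀
          rw [div_mul_eq_mul_div, le_div_iff₀ hρ]
          linarith
        have h4 : 0 ≤ (2 / ρ) ^ K := by positivity
        calc z ^ c = z ^ c * 1 := (mul_one _).symm
          _ ≤ z ^ c * ((2 / ρ) ^ K * z ^ K) :=
            mul_le_mul_of_nonneg_left h3 (pow_nonneg hz0.le _)
          _ = (2 / ρ) ^ K * z ^ (c + K) := by rw [pow_add]; ring
          _ ≤ (2 / ρ) ^ K * (z ^ l * θ ^ m) := mul_le_mul_of_nonneg_left h2 h4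
          _ = (2 / ρ) ^ K * θ ^ m * z ^ l := by ring
      refine (sum_le_sum h1).trans ?_
      rw [← mul_sum]
      have hA' : ∑ u ∈ range (k ^ q), z ^ len k T ((u : ℚ), (q : ℤ)) ≤ 1 := hA q
      have h2 : 0 ≤ (2 / ρ) ^ K * θ ^ m := by positivity
      have h3 : 0 ≤ (k : ℝ) ^ (2 * K * R) * θ ^ m := by positivity
      calc (2 / ρ) ^ K * θ ^ m * ∑ u ∈ range (k ^ q), z ^ len k T ((u : ℚ), (q : ℤ))
          ≤ (2 / ρ) ^ K * θ ^ m * 1 := mul_le_mul_of_nonneg_left hA' h2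
        _ ≤ ((k : ℝ) ^ (2 * K * R) + (2 / ρ) ^ K) * θ ^ m := by
          rw [add_mul]
          linarith
  unfold E
  refine (sum_le_card_nsmul _ _ _ hterm).trans ?_
  rw [nsmul_eq_mul]
  have hcard : ((m.properDivisors.card : ℕ) : ℝ) ≤ m := by
    have h1 : m.properDivisors ⊆ range m := by
      intro q hq
      rw [Nat.mem_properDivisors] at hq
      exact mem_range.2 hq.2
    have h2 := card_le_card h1
    rw [card_range] at h2
    exact_mod_cast h2
  have h4 : 0 ≤ ((k : ℝ) ^ (2 * K * R) + (2 / ρ) ^ K) * θ ^ m := by positivity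
  calc (m.properDivisors.card : ℝ) * (((k : ℝ) ^ (2 * K * R) + (2 / ρ) ^ K) * θ ^ m)
      ≤ m * (((k : ℝ) ^ (2 * K * R) + (2 / ρ) ^ K) * θ ^ m) :=
        mul_le_mul_of_nonneg_right hcard h4
    _ = ((k : ℝ) ^ (2 * K * R) + (2 / ρ) ^ K) * (m * θ ^ m) := by ring

end Pool.Agent.J6H76.CG19
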