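import Pool.Agent.J6H54.CG.Stm

/-!
# Module CG-13 of project CG of helper54: the radius
-/

set_option autoImplicit false

namespace Pool.Agent.J6H76.CG13

open Pool.Agent.J6H54.CG

variable {k : ℕ} {T : Finset Pt}

theorem A_zero (z : ℝ) : A k T 0 z = 1 := by
  unfold A
  rw [pow_zero, Finset.sum_range_one]
  have : len k T (((0 : ℕ) : ℚ), ((0 : ℕ) : ℤ)) = 0 := by
    rw [Nat.cast_zero, Nat.cast_zero]
    exact len_zero
  rw [this, pow_zero]

theorem A_nonneg (h : ℕ) {z : ℝ} (hz : 0 ≤ z) : 0 ≤ A k T h z :=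
  Finset.sum_nonneg fun _ _ => pow_nonneg hz _

theorem A_mono (h : ℕ) {y z : ℝ} (hy : 0 ≤ y) (hyz : y ≤ z) : A k T h y ≤ A k T h z :=
  Finset.sum_le_sum fun _ _ => pow_le_pow_left₀ hy hyz _

theorem A_cont (h : ℕ) : Continuous (A k T h) := by
  unfold A
  exact continuous_finsetSum _ fun _ _ => continuous_id.pow _

theorem A_one (h : ℕ) : A k T h 1 = (k : ℝ) ^ h := by
  unfold A
  simp

theorem pow_A (h12 : S_mulA) {K : ℕ} (hT : Gen k T) (hK : Key k T K) (h n : ℕ) {z : ℝ}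
    (hz : 0 < z) (hz1 : z ≤ 1) : A k T h z ^ n ≤ A k T (n * h) z := by
  induction n with
  | zero => rw [Nat.zero_mul, A_zero, pow_zero]
  | succ n ih =>
    have h1 := (h12 k T K hT hK (n * h) h z hz hz1).1
    rw [Nat.succ_mul, pow_succ]
    exact (mul_le_mul_of_nonneg_right ih (A_nonneg h hz.le)).trans h1

theorem A_pow (h12 : S_mulA) {K : ℕ} (hT : Gen k T) (hK : Key k T K) (h n : ℕ) {z : ℝ}
    (hz : 0 < z) (hz1 : z ≤ 1) : (z ^ K) ^ n * A k T (n * h) z ≤ A k T h z ^ n := by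
  induction n with
  | zero => rw [Nat.zero_mul, A_zero, pow_zero, pow_zero, mul_one]
  | succ n ih =>
    have h1 := (h12 k T K hT hK (n * h) h z hz hz1).2
    rw [Nat.succ_mul, pow_succ, pow_succ, mul_assoc]
    refine (mul_le_mul_of_nonneg_left h1 (pow_nonneg (pow_nonneg hz.le _) _)).trans ?_
    rw [← mul_assoc]
    exact mul_le_mul_of_nonneg_right ih (A_nonneg h hz.le)

theorem small (hk : 2 ≤ k) {R : ℕ}
    (hR : ∀ p : Pt, KA k p.1 → p.2.natAbs ≤ R * len k T p) (h : ℕ) :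
    A k T h (((k : ℝ)⁻¹) ^ R) ≤ 1 := by
  have hk0 : (0 : ℝ) < k := by
    have : 0 < k := by omega
    exact_mod_cast this
  have hk1 : (k : ℝ)⁻¹ ≤ 1 := by
    apply inv_le_one_of_one_le₀
    have : 1 ≤ k := by omega
    exact_mod_cast this
  have h1 : A k T h (((k : ℝ)⁻¹) ^ R) ≤ ∑ _u ∈ Finset.range (k ^ h), ((k : ℝ)⁻¹) ^ h := by
    refine Finset.sum_le_sum fun u _ => ?_
    rw [← pow_mul]
    refine pow_le_pow_of_le_one (inv_nonneg.2 hk0.le) hk1 ?_
    have := hR ((u : ℚ), (h : ℤ)) (ka_nat u)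
    simpa using this
  refine h1.trans (le_of_eq ?_)
  rw [Finset.sum_const, Finset.card_range, nsmul_eq_mul, Nat.cast_pow, ← mul_pow,
    mul_inv_cancel₀ hk0.ne', one_pow]

theorem m13 (h12 : S_mulA) : S_rho := by
  intro k T R K C hT hB hK hR hC
  have hk : 2 ≤ k := hT.two_le
  have hk0 : (0 : ℝ) < k := by
    have : 0 < k := by omega
    exact_mod_cast this
  have hk1 : (k : ℝ)⁻¹ ≤ 1 := by
    apply inv_le_one_of_one_le₀
    have : 1 ≤ k := by omega
    exact_mod_cast this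
  let Z : Set ℝ := {z | 0 < z ∧ z ≤ 1 ∧ ∀ h, A k T h z ≤ 1}
  have hz0 : ((k : ℝ)⁻¹) ^ R ∈ Z :=
    ⟨pow_pos (inv_pos.2 hk0) _, pow_le_one₀ (inv_nonneg.2 hk0.le) hk1, small hk hR⟩
  have hbdd : BddAbove Z := ⟨1, fun z hz => hz.2.1⟩
  obtain ⟨ρ, hρ⟩ : ∃ ρ, ρ = sSup Z := ⟨_, rfl⟩
  have hcl : ρ ∈ closure Z := hρ ▸ csSup_mem_closure ⟨_, hz0⟩ hbdd
  have hpos : 0 < ρ := lt_of_lt_of_le hz0.1 (hρ ▸ le_csSup hbdd hz0)
  have hA1 : ∀ h, A k T h ρ ≤ 1 := by
    intro h
    have h1 : IsClosed {z | A k T h z ≤ 1} := isClosed_le (A_cont h) continuous_const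
    exact h1.closure_subset_iff.2 (fun z hz => hz.2.2 h) hcl
  have hle1 : ρ ≤ 1 := by
    have h1 : IsClosed {z : ℝ | z ≤ 1} := isClosed_le continuous_id continuous_const
    exact h1.closure_subset_iff.2 (fun z hz => hz.2.1) hcl
  have hlt : ρ < 1 := by
    refine lt_of_le_of_ne hle1 ?_
    intro h1
    have h2 := hA1 1
    rw [h1, A_one, pow_one] at h2
    have : (2 : ℝ) ≤ k := by exact_mod_cast hk
    linarith
  have hlow : ∀ h, ρ ^ K ≤ A k T h ρ := by
    intro h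
    by_contra hc
    rw [not_le] at hc
    -- a point `z` in `(ρ, 1)` with `A_h(z) < z ^ K`
    obtain ⟨z, hρz, hz1, hz⟩ : ∃ z, ρ < z ∧ z < 1 ∧ A k T h z < z ^ K := by
      have h1 : IsOpen {z : ℝ | A k T h z < z ^ K} := isOpen_lt (A_cont h) (continuous_id.pow K)
      have h2 : {z : ℝ | A k T h z < z ^ K} ∈ nhds ρ := h1.mem_nhds hc
      obtain ⟨ε, hε, h3⟩ := Metric.mem_nhds_iff.1 h2
      refine ⟨ρ + min (ε / 2) ((1 - ρ) / 2), ?_, ?_, ?_⟩
      · have : 0 < min (ε / 2) ((1 - ρ) / 2) := lt_min (by linarith) (by linarith)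
        linarith
      · have := min_le_right (ε / 2) ((1 - ρ) / 2)
        linarith
      · apply h3
        rw [Metric.mem_ball, Real.dist_eq, add_sub_cancel_left, abs_of_nonneg]
        · have := min_le_left (ε / 2) ((1 - ρ) / 2)
          linarith
        · exact le_min (by linarith) (by linarith)
    have hz0 : 0 < z := hpos.trans hρz
    -- some `A_{h'}(z) > 1`
    obtain ⟨h', hh'⟩ : ∃ h', 1 < A k T h' z := by
      by_contra hcon
      push Not at hcon
      have : z ≤ ρ := by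
        rw [hρ]
        exact le_csSup hbdd ⟨hz0, hz1.le, hcon⟩
      linarith
    have hne : h ≠ 0 := by
      rintro rfl
      rw [A_zero] at hz
      exact absurd (pow_le_one₀ hz0.le hz1.le) (not_le.2 hz)
    have hne' : h' ≠ 0 := by
      rintro rfl
      rw [A_zero] at hh'
      exact lt_irrefl _ hh'
    have h1 := A_pow h12 hT hK h h' hz0 hz1.le
    have h2 := pow_A h12 hT hK h' h hz0 hz1.le
    have h3 : 1 < A k T h' z ^ h := one_lt_pow₀ hh' hne
    have h4 : A k T h z ^ h' < (z ^ K) ^ h' := pow_lt_pow_left₀ hz (A_nonneg h hz0.le) hne'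
    rw [Nat.mul_comm] at h2
    have h5 : 1 < A k T (h' * h) z := h3.trans_le h2
    have h6 : 0 < (z ^ K) ^ h' := pow_pos (pow_pos hz0 _) _
    have h7 : (z ^ K) ^ h' * 1 < (z ^ K) ^ h' * A k T (h' * h) z := mul_lt_mul_of_pos_left h5 h6
    linarith
  have hlen : ∀ h u : ℕ, h ≤ R * len k T ((u : ℚ), (h : ℤ)) := by
    intro h u
    have := hR ((u : ℚ), (h : ℤ)) (ka_nat u)
    simpa using this
  refine ⟨ρ, hpos, hlt, ?_, ?_⟩
  · intro q hq hq1 h
    have h1 : A k T h (ρ * q ^ R) ≤ A k T h ρ * q ^ h := by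
      unfold A
      rw [Finset.sum_mul]
      refine Finset.sum_le_sum fun u _ => ?_
      rw [mul_pow, ← pow_mul]
      exact mul_le_mul_of_nonneg_left (pow_le_pow_of_le_one hq.le hq1 (hlen h u))
        (pow_nonneg hpos.le _)
    refine h1.trans ?_
    have := mul_le_mul_of_nonneg_right (hA1 h) (pow_nonneg hq.le h)
    rwa [one_mul] at this
  · intro q hq hq1 h
    refine (mul_le_mul_of_nonneg_right (hlow h) (pow_nonneg hq.le _)).trans ?_
    unfold A
    rw [Finset.sum_mul]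
    refine Finset.sum_le_sum fun u hu => ?_
    rw [mul_pow, ← pow_mul]
    refine mul_le_mul_of_nonneg_left (pow_le_pow_of_le_one hq.le hq1 ?_) (pow_nonneg hpos.le _)
    exact Nat.mul_le_mul_left R (hC h u (Finset.mem_range.1 hu))

end Pool.Agent.J6H76.CG13
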